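import Mathlib
import Pool.Agent.AAP.Lmv

set_option autoImplicit false

/-!
# A tame generator moves the points of a backward orbit close to a superattracting cycle whose
local degree is not a power of the residue characteristic
-/

namespace Pool.Agent.TFS5

open Polynomial WithZero
open scoped WithZero
open Pool.Agent.TameArb (Over Tame WW)
open Pool.Agent.AAP Pool.Agent.AAP.LmvA

theorem loc_move {K : Type} [Field K] (v : Valuation K ℤᵐ⁰) (A B : K[X])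
    (hA : ∀ i, v (A.coeff i) ≤ 1) (hB : ∀ i, v (B.coeff i) ≤ 1) (hB0 : v (B.coeff 0) = 1)
    (e : ℕ) (he : 2 ≤ e) (hlow : ∀ j < e, v (A.coeff j) < 1) (htop : v (A.coeff e) = 1)
    (h0 : A.coeff 0 ≠ 0) (p : ℕ) (hp : p.Prime) (l : ℕ) (hl : l.Prime) (hlp : l ≠ p) (hle : l ∣ e) :
    ∃ n0 : ℕ, ∀ (L : Type) [Field L] [Algebra K L] (V : Valuation L ℤᵐ⁰) (r : ℕ)
      (τ : L ≃ₐ[K] L) (_ : Tame v V r p τ) (n : ℕ), n0 ≤ n → ∀ t : ℕ → L, t 0 = 0 →
      (∀ j ≤ n, V (t j) < 1) →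
      (∀ j < n, t j * aeval (t (j + 1)) B = aeval (t (j + 1)) A) → τ (t n) ≠ t n := by
  have hA0 : v (A.coeff 0) < 1 := hlow 0 (by omega)
  have hA1 : v (A.coeff 1) < 1 := hlow 1 (by omega)
  obtain ⟨k0', hk0'⟩ := exists_exp_neg_natCast_lt ((Valuation.ne_zero_iff v).mpr h0)
  obtain ⟨k0, hk0⟩ : ∃ k0, k0 = k0' + 1 := ⟨_, rfl⟩
  have hη : exp (-1) ^ k0 ≤ v (A.coeff 0) := by
    refine le_trans ?_ hk0'.le
    rw [← exp_nsmul, exp_le_exp, hk0]
    simp only [nsmul_eq_mul]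
    push_cast
    omega
  obtain ⟨D, hD⟩ : ∃ D, D = max A.natDegree B.natDegree + 1 := ⟨_, rfl⟩
  refine ⟨k0 + D ^ k0, ?_⟩
  intro L _ _ V r τ hτ n hn t ht0 h1 ht hfix
  have h := hτ.ov
  have hr : (0 : ℤ) < r := by
    have := h.ne
    omega
  obtain ⟨j0, hj0k, hj0W⟩ := exit h hA hB hB0 hA0 hA1 (by omega) hη ht0
    fun j hj => ht j (by omega)
  have hj0n : j0 ≤ n := by omega
  obtain ⟨hnW, hpow⟩ := chain h hA hB hB0 he hlow htop hj0n h1 ht hj0W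
  have htn0 : t n ≠ 0 := by
    intro hc
    rw [hc, map_zero] at hnW
    exact absurd hnW (not_lt.mpr zero_le)
  have htj0 : t j0 ≠ 0 := by
    intro hc
    rw [hc, map_zero] at hj0W
    exact absurd hj0W (not_lt.mpr zero_le)
  obtain ⟨s, k', hk'⟩ := hτ.fixed htn0 (i := 1) (by rw [pow_one]; exact hfix)
  obtain ⟨E, hE1, hE2, hE3⟩ := deg_le h hB htop (D := D) (by omega) (by omega) ht0 h1 ht j0 hj0n
  obtain ⟨Q, hQ⟩ : ∃ Q : K[X], Q = minpoly K (⟨t j0, hE3⟩ : E) := ⟨_, rfl⟩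
  have hintE : IsIntegral K (⟨t j0, hE3⟩ : E) := Algebra.IsIntegral.isIntegral _
  have hQ0 : Q ≠ 0 := hQ ▸ minpoly.ne_zero hintE
  have hQd : Q.natDegree ≤ D ^ j0 := by
    rw [hQ]
    exact (minpoly.natDegree_le _).trans hE2
  have hQt : aeval (t j0) Q = 0 := by
    have h2 : aeval (⟨t j0, hE3⟩ : E) Q = 0 := hQ ▸ minpoly.aeval K _
    have h3 := congrArg (algebraMap E L) h2
    rw [map_zero, ← aeval_algebraMap_apply] at h3
    exact h3
  obtain ⟨m, hm1, hm2, a', ha', hm3⟩ := h.denom hQ0 htj0 hQt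
  have hl1 : ((e ^ (n - j0) : ℕ) : ℤ) * log (V (t n)) = log (V (t j0)) := by
    have := congrArg log hpow
    rwa [log_pow, nsmul_eq_mul] at this
  have hl2 : (m : ℤ) * log (V (t j0)) = r * log (v a') := by
    rw [← h.val] at hm3
    have := congrArg log hm3
    rwa [log_pow, log_pow, nsmul_eq_mul, nsmul_eq_mul] at this
  have hVj0 : V (t j0) ≠ 0 := (Valuation.ne_zero_iff V).mpr htj0
  have hl3 : log (V (t j0)) < 0 := by
    rw [log_lt_iff_lt_exp hVj0, exp_zero]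
    exact h1 j0 hj0n
  have hl4 : -(r : ℤ) < log (V (t j0)) := by
    rw [lt_log_iff_exp_lt hVj0, ← TameArb.WW_eq]
    exact hj0W
  obtain ⟨x0, hx0⟩ : ∃ x0, x0 = log (V (t j0)) := ⟨_, rfl⟩
  obtain ⟨x1, hx1⟩ : ∃ x1, x1 = log (V (t n)) := ⟨_, rfl⟩
  obtain ⟨q, hq⟩ : ∃ q, q = log (v a') := ⟨_, rfl⟩
  obtain ⟨N', hN'⟩ : ∃ N' : ℕ, N' = e ^ (n - j0) := ⟨_, rfl⟩
  rw [← hx0, ← hx1, ← hN'] at hl1
  rw [← hx0, ← hq] at hl2
  rw [← hx0] at hl3 hl4
  rw [← hx1] at hk'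
  have hmpos : (0 : ℤ) < m := by exact_mod_cast hm1
  have hq1 : q < 0 := by
    by_contra hcon
    push Not at hcon
    have h2 : (m : ℤ) * x0 < 0 := mul_neg_of_pos_of_neg hmpos hl3
    have h3 : 0 ≤ (r : ℤ) * q := mul_nonneg hr.le hcon
    linarith
  have hq2 : -(m : ℤ) < q := by
    have h2 : (r : ℤ) * (-(m : ℤ)) < r * q := by
      rw [← hl2]
      have : (m : ℤ) * (-(r : ℤ)) < m * x0 := mul_lt_mul_of_pos_left hl4 hmpos
      linarith
    exact lt_of_mul_lt_mul_left h2 hr.le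
  have hdiv : (N' : ℤ) ∣ (p : ℤ) ^ s * q := by
    refine ⟨m * k', ?_⟩
    have h2 : (r : ℤ) * ((p : ℤ) ^ s * q) = r * (N' * (m * k')) := by
      push_cast at hk'
      linear_combination (-(p : ℤ) ^ s) * hl2 + (-(m : ℤ) * p ^ s) * hl1 + (N' : ℤ) * m * hk'
    exact mul_left_cancel₀ hr.ne' h2
  have hlN : ((l ^ (n - j0) : ℕ) : ℤ) ∣ (N' : ℤ) := by
    rw [hN']
    exact_mod_cast pow_dvd_pow_of_dvd hle (n - j0)
  have hcop : IsCoprime ((l ^ (n - j0) : ℕ) : ℤ) ((p : ℤ) ^ s) := by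
    refine IsCoprime.pow_right ?_
    rw [Nat.isCoprime_iff_coprime]
    exact Nat.Coprime.pow_left _ ((Nat.coprime_primes hl hp).2 hlp)
  have hdiv2 := hcop.dvd_of_dvd_mul_left (hlN.trans hdiv)
  have h2 : ((l ^ (n - j0) : ℕ) : ℤ) ≤ -q := by
    refine Int.le_of_dvd (by linarith) ?_
    exact (dvd_neg).2 hdiv2
  have h3 : l ^ (n - j0) < m := by
    have : ((l ^ (n - j0) : ℕ) : ℤ) < m := by linarith
    exact_mod_cast this
  have h4 : D ^ j0 ≤ D ^ k0 := Nat.pow_le_pow_right (by omega) hj0k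
  have h5 : n - j0 < l ^ (n - j0) := Nat.lt_pow_self hl.one_lt
  omega

end Pool.Agent.TFS5
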