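import Mathlib
import Pool.Agent.AAP.SA
import Pool.Agent.TFS5.Cmv

set_option autoImplicit false

/-!
# All finite sets of nonperiodic points, if all cycles modulo one prime are critical and no local
degree is a power of the residue characteristic
-/

namespace Pool.Agent.TFS5

open NumberField IsDedekindDomain Polynomial
open scoped WithZero
open Pool.Agent.PNH (Tup app mp IsMor Cert)
open Pool.Agent.TameArb (PosDens pt Over Tame Frob)
open Pool.Agent.AAP hiding cyc_move loc_move dens_sa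

theorem dens_sa {K : Type} [Field K] [NumberField K] {d : ℕ} (hd : 2 ≤ d) {F : Tup 1 K}
    (hF : IsMor d K F) (v : HeightOneSpectrum (𝓞 K)) (hv : Good (v.valuation K) F) {p : ℕ}
    (hp : p.Prime) (hpv : v.valuation K (p : K) < 1) (Γ : Finset (Fin 2 → K))
    (hΓ : ∀ x ∈ Γ, x ≠ 0)
    (h : ∀ x ∈ Γ, ¬ PerMod (v.valuation K) F x ∨ (¬ Periodic F x ∧ ∃ N e, 0 < N ∧ 2 ≤ e ∧
      (∃ l : ℕ, l.Prime ∧ l ≠ p ∧ l ∣ e) ∧ SAt (v.valuation K) F x N e)) : PosDens (SP F Γ) := by
  classical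
  -- the period and the level of every point
  have h1 : ∀ x : Fin 2 → K, ∃ N n0 : ℕ, 0 < N ∧ (x ∈ Γ → PerMod (v.valuation K) F x →
      Cg (v.valuation K) ((app F)^[N] x) x ∧
      ∀ (L : Type) [Field L] [Algebra K L] (V : Valuation L ℤᵐ⁰) (r : ℕ)
        (τ : L ≃ₐ[K] L) (_ : Tame (v.valuation K) V r p τ) (n : ℕ), n0 ≤ n → ∀ z : Fin 2 → L,
        Cg V z (fun i => algebraMap K L (x i)) →
        wd ((app (mp (algebraMap K L) F))^[N * n] z) (fun i => algebraMap K L (x i)) = 0 →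
        wd (fun i => τ (z i)) z ≠ 0) := by
    intro x
    by_cases hx : x ∈ Γ ∧ PerMod (v.valuation K) F x
    · obtain ⟨hxΓ, hper⟩ := hx
      rcases h x hxΓ with h2 | ⟨hnp, N, e, hN, he, ⟨l, hl, hlp, hle⟩, hS⟩
      · exact absurd hper h2
      · obtain ⟨n0, hn0⟩ := TFS5.cyc_move hF.1 hv (hΓ x hxΓ) hnp hN he hp hl hlp hle hS
        exact ⟨N, n0, hN, fun _ _ => ⟨SAt.cg hF.1 hv (hΓ x hxΓ) (by omega) hS, hn0⟩⟩
    · exact ⟨1, 0, one_pos, fun h2 h3 => absurd ⟨h2, h3⟩ hx⟩
  choose N n0 hN0 hN using h1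
  set P : ℕ := ∏ x ∈ Γ, N x with hP
  have hP0 : 0 < P := Finset.prod_pos fun x _ => hN0 x
  set M : ℕ := ∑ x ∈ Γ, n0 x with hM
  -- the level
  set m : ℕ := P * M with hm
  have hmx : ∀ x ∈ Γ, ∃ n, n0 x ≤ n ∧ m = N x * n := by
    intro x hx
    obtain ⟨a, ha⟩ := Finset.dvd_prod_of_mem N hx
    refine ⟨a * M, ?_, ?_⟩
    · have ha0 : 0 < a := by
        rcases Nat.eq_zero_or_pos a with h0 | h0
        · rw [h0, mul_zero] at ha
          rw [ha] at hP
          omega
        · exact h0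
      exact (Finset.single_le_sum (f := n0) (fun _ _ => Nat.zero_le _) hx).trans
        (Nat.le_mul_of_pos_left _ ha0)
    · rw [hm, hP, ha, mul_assoc]
  set q : ℕ := Ideal.absNorm v.asIdeal with hq
  have hq1 : 1 < q := by
    have h0 : q ≠ 0 := fun h => v.ne_bot (Ideal.absNorm_eq_zero_iff.1 h)
    have h1 : q ≠ 1 := fun h => v.isPrime.ne_top (Ideal.absNorm_eq_one_iff.1 h)
    omega
  set i : ℕ := Nat.factorial (d ^ m) with hi
  have hi0 : 0 < i := Nat.factorial_pos _
  set Q : ℕ := q ^ i with hQ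
  have hQ1 : 1 < Q := Nat.one_lt_pow (by omega) hq1
  refine dens_of_moves hd hF Γ hΓ (m + Q ^ 2) fun L _ _ _ _ => ?_
  obtain ⟨w, e, τ, h, hτ, hτV, hh, hhV⟩ := exists_tame_frob K L v p hp hpv
  refine ⟨τ * h ^ i, fun x hx z hz hzx hgz => ?_⟩
  set V := w.valuation L with hV
  set FL := mp (algebraMap K L) F with hFL
  have ho : Over (v.valuation K) V e := hτ.ov
  have hGL : Good V FL := Over.good ho hv
  have hFLh : ∀ i, (FL i).IsHomogeneous d := PNH.hom_mp d _ F hF.1
  set xL : Fin 2 → L := fun i => algebraMap K L (x i) with hxL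
  have hxL0 : xL ≠ 0 := map_ne (hΓ x hx)
  set y : Fin 2 → L := (app FL)^[Q ^ 2] z with hy
  have hy0 : y ≠ 0 := good_iter_ne hFLh hGL _ hz
  have hyx : wd ((app FL)^[m] y) xL = 0 := by
    rw [hy, ← Function.iterate_add_apply]
    exact hzx
  -- `y` is fixed by `g`, hence by `τ`
  have hgy : wd (fun j => (τ * h ^ i) (y j)) y = 0 := by
    have h2 : (fun j => (τ * h ^ i) (y j)) = (app FL)^[Q ^ 2] (fun j => (τ * h ^ i) (z j)) := by
      rw [hy]
      exact (iter_aut (τ * h ^ i) F (Q ^ 2) z).symm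
    rw [h2, hy]
    refine iter_wd hFLh ?_ hgz _
    intro h0
    apply hz
    funext j
    have := congrFun h0 j
    exact (map_eq_zero (τ * h ^ i)).mp this
  have hhy : wd (fun j => (h ^ i) (y j)) y = 0 :=
    fix_fibre (by omega) hF m (hΓ x hx) h hy0 hyx
  have hτy : wd (fun j => τ (y j)) y = 0 := by
    have h2 : wd (fun j => τ ((h ^ i) (y j))) (fun j => τ (y j)) = 0 := by
      rw [wd_aut, hhy, map_zero]
    have h3 : (fun j => τ ((h ^ i) (y j))) ≠ 0 := by
      intro h0
      apply hy0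
      funext j
      have := congrFun h0 j
      exact (map_eq_zero (h ^ i)).mp ((map_eq_zero τ).mp this)
    exact wd_trans h3 (wd_symm h2) hgy
  -- `y` is not periodic modulo `w`
  have hynp : ¬ PerMod V FL y := by
    intro hper
    have hiter : ∀ j : ℕ, Cg V ((app FL)^[j] ((app FL)^[m] y)) ((app FL)^[j] xL) := fun j =>
      good_cg hFLh hGL (Cg.of_wd (good_iter_ne hFLh hGL m hy0) hxL0 hyx) j
    have hperx : PerMod (v.valuation K) F x := by
      rw [← Over.perMod ho F x]
      exact PerMod.of_cg hFLh hGL (hiter 0) (PerMod.iter hFLh hGL hper m)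
    obtain ⟨hNx, hmove⟩ := hN x hx hperx
    obtain ⟨n, hn, hmn⟩ := hmx x hx
    have hNxL : Cg V ((app FL)^[N x] xL) xL := by
      rw [hxL, hFL, iter_map]
      exact (Over.cg ho _ _).mpr hNx
    obtain ⟨k, hk, hky⟩ := hper
    -- `y` is congruent to `x`
    have hyx' : Cg V y xL := by
      have h2 : Cg V ((app FL)^[m * k] y) y := by
        have := PerMod.mul hFLh hGL hky m
        exact this
      have h3 : Cg V ((app FL)^[m * k] y) xL := by
        obtain ⟨k', rfl⟩ : ∃ k', k = k' + 1 := ⟨k - 1, by omega⟩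
        rw [show m * (k' + 1) = m * k' + m by ring, Function.iterate_add_apply]
        refine (hiter (m * k')).trans ?_
        rw [hmn, show N x * n * k' = (n * k') * N x by ring]
        exact PerMod.mul hFLh hGL hNxL _
      exact h2.symm.trans h3
    refine hmove L V e τ hτ n hn y hyx' ?_ hτy
    rw [← hmn]
    exact hyx
  -- the action on residue classes
  have hgV : ∀ a, V ((τ * h ^ i) a) = V a := by
    have hpow : ∀ (j : ℕ) (a : L), V ((h ^ j) a) = V a := by
      intro j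
      induction j with
      | zero => intro a; simp
      | succ j ih =>
        intro a
        rw [pow_succ, AlgEquiv.mul_apply, ih, hhV]
    intro a
    rw [AlgEquiv.mul_apply, hτV, hpow]
  have hgfr : ∀ a : L, V a ≤ 1 → V ((τ * h ^ i) a - a ^ Q) < 1 := by
    intro a ha
    obtain ⟨h2, h3⟩ := hh.pow i ha
    have h4 := hτ.inert ((h ^ i) a) h2
    have h5 : (τ * h ^ i) a - a ^ Q = (τ ((h ^ i) a) - (h ^ i) a) + ((h ^ i) a - a ^ Q) := by
      rw [AlgEquiv.mul_apply]
      ring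
    rw [h5]
    exact Valuation.map_add_lt _ h4 h3
  obtain ⟨a, b, hab, hb, hcg⟩ := frb_core hF.1 hGL (τ * h ^ i) hgV hQ1 hgfr hz hgz
    (le_refl (Q ^ 2))
  apply hynp
  have h6 : PerMod V FL ((app FL)^[a] z) := by
    refine ⟨b - a, by omega, ?_⟩
    rw [← Function.iterate_add_apply, show b - a + a = b by omega]
    exact hcg.symm
  have h7 := PerMod.iter hFLh hGL h6 (Q ^ 2 - a)
  rw [← Function.iterate_add_apply, show Q ^ 2 - a + a = Q ^ 2 by omega] at h7
  exact h7

end Pool.Agent.TFS5
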