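import Mathlib
import Pool.Agent.PSH.Pair
import Pool.Agent.TFS2.Res
import Pool.Agent.TFS4.Sup
import Pool.Agent.TFS5.SA

set_option autoImplicit false

/-!
# A prime at which all cycles of residue classes are superattracting and not purely wild
-/

namespace Pool.Agent.TFS5

open Polynomial NumberField IsDedekindDomain
open scoped WithZero
open Pool.Agent.PNH (Tup app mp IsMor)
open Pool.Agent.TameArb (PosDens ph Good GP ph_eq_eval)
open Pool.Agent.AAP (wd nv Cg PerMod SAt near IntT fm)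
open Pool.Agent.PSH.PairA (pr hom_pr isMor_pr iter_pr good_pr)
open Pool.Agent.TFS4 (sat_aff sat_inf per_aff)

/-- superattracting cycles -/
theorem infinite_sup {K : Type} [Field K] [NumberField K] {φ : K[X]} (hd : 2 ≤ φ.natDegree)
    (v : HeightOneSpectrum (𝓞 K)) (hG : Good (v.valuation K) φ)
    {p : ℕ} (hp : p.Prime) (hpv : v.valuation K (p : K) < 1)
    (hld : ∃ l : ℕ, l.Prime ∧ l ≠ p ∧ l ∣ φ.natDegree)
    (h : ∀ x : K, v.valuation K x ≤ 1 →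
      (∃ n, 0 < n ∧ v.valuation K ((fun y => φ.eval y)^[n] x - x) < 1) →
      ∃ N e : ℕ, 0 < N ∧ 2 ≤ e ∧ (∃ l : ℕ, l.Prime ∧ l ≠ p ∧ l ∣ e) ∧
        (∀ j < e, v.valuation K ((((φ.comp)^[N] X).comp (X + C x) - C x).coeff j) < 1) ∧
        v.valuation K ((((φ.comp)^[N] X).comp (X + C x) - C x).coeff e) = 1)
    (Γ : Finset K) (hΓ : ∀ γ ∈ Γ, ∀ n, 0 < n → (ph φ)^[n] γ ≠ γ) : (GP φ Γ).Infinite := by
  let ι : K ↪ (Fin 2 → K) := ⟨fun γ => ![γ, 1], fun a b hab => by simpa using congrFun hab 0⟩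
  have hGp := good_pr hd hG
  refine Pool.Agent.TFS2.infinite_of_pr hd Γ (Γ.map ι)
    (fun γ hγ => Finset.mem_map.mpr ⟨γ, hγ, rfl⟩) ?_
  refine TFS5.dens_sa hd (isMor_pr φ hd) v hGp hp hpv _ ?_ ?_
  · intro x hx
    obtain ⟨γ, -, rfl⟩ := Finset.mem_map.mp hx
    intro h
    exact one_ne_zero (congrFun h 1)
  · intro x hx
    obtain ⟨γ, hγ, rfl⟩ := Finset.mem_map.mp hx
    have hnp : ¬ AAP.Periodic (pr φ) (![γ, 1] : Fin 2 → K) := by
      rintro ⟨n, hn, hper⟩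
      rw [iter_pr] at hper
      refine hΓ γ hγ n hn ?_
      have e : AAP.wd ![(ph φ)^[n] γ, 1] ![γ, 1] = (ph φ)^[n] γ - γ := by
        simp [AAP.wd]
      rw [e] at hper
      exact sub_eq_zero.mp hper
    change ¬ PerMod (v.valuation K) (pr φ) ![γ, 1] ∨ (¬ AAP.Periodic (pr φ) ![γ, 1] ∧ ∃ N e,
      0 < N ∧ 2 ≤ e ∧ (∃ l : ℕ, l.Prime ∧ l ≠ p ∧ l ∣ e) ∧
        SAt (v.valuation K) (pr φ) ![γ, 1] N e)
    rcases lt_or_ge 1 (v.valuation K γ) with h1 | h1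
    · exact Or.inr ⟨hnp, 1, φ.natDegree, one_pos, hd, hld, sat_inf hG h1⟩
    · by_cases hper : PerMod (v.valuation K) (pr φ) ![γ, 1]
      · obtain ⟨N, e, hN, he, hl, h2, h3⟩ := h γ h1 (per_aff hG h1 hper)
        exact Or.inr ⟨hnp, N, e, hN, he, hl, sat_aff h1 h2 h3⟩
      · exact Or.inl hper

/-- the form with local degrees divisible by the degree -/
theorem infinite_sup_dvd {K : Type} [Field K] [NumberField K] {φ : K[X]} (hd : 2 ≤ φ.natDegree)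
    (v : HeightOneSpectrum (𝓞 K)) (hG : Good (v.valuation K) φ)
    {p : ℕ} (hp : p.Prime) (hpv : v.valuation K (p : K) < 1)
    (hld : ∃ l : ℕ, l.Prime ∧ l ≠ p ∧ l ∣ φ.natDegree)
    (h : ∀ x : K, v.valuation K x ≤ 1 →
      (∃ n, 0 < n ∧ v.valuation K ((fun y => φ.eval y)^[n] x - x) < 1) →
      ∃ N e : ℕ, 0 < N ∧ 2 ≤ e ∧ φ.natDegree ∣ e ∧
        (∀ j < e, v.valuation K ((((φ.comp)^[N] X).comp (X + C x) - C x).coeff j) < 1) ∧
        v.valuation K ((((φ.comp)^[N] X).comp (X + C x) - C x).coeff e) = 1)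
    (Γ : Finset K) (hΓ : ∀ γ ∈ Γ, ∀ n, 0 < n → (ph φ)^[n] γ ≠ γ) : (GP φ Γ).Infinite := by
  refine infinite_sup hd v hG hp hpv hld (fun x hx hper => ?_) Γ hΓ
  obtain ⟨N, e, hN, he, hde, h2, h3⟩ := h x hx hper
  obtain ⟨l, hl, hlp, hld'⟩ := hld
  exact ⟨N, e, hN, he, ⟨l, hl, hlp, hld'.trans hde⟩, h2, h3⟩

end Pool.Agent.TFS5
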