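import Pool.Agent.TameArb.Iter

/-!
# Local degrees of the iterates of polynomials that are unicritical modulo a place, all degrees
-/

set_option autoImplicit false

open Polynomial IsDedekindDomain NumberField
open scoped WithZero

namespace Pool.Agent.TFS5

section Dom

variable {κ : Type} [CommRing κ] [IsDomain κ]

/-- the iterates of `a x ^ d + b` near a point, in characteristic `p` -/
theorem ord_iter' {a b : κ} (ha : a ≠ 0) {d : ℕ} (hd : 1 ≤ d) {p : ℕ} (hp : p.Prime) [CharP κ p]
    (x : κ) (n : ℕ) :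
    ∃ (Q : κ[X]) (E : ℕ), Q.coeff 0 ≠ 0 ∧ 0 < E ∧
      (((C a * X ^ d + C b : κ[X]).comp)^[n] X).comp (X + C x) =
        C ((fun y => (C a * X ^ d + C b : κ[X]).eval y)^[n] x) + X ^ E * Q ∧
      ((∃ i < n, (fun y => (C a * X ^ d + C b : κ[X]).eval y)^[i] x = 0) → d ∣ E) := by
  have hFp : Fact p.Prime := ⟨hp⟩
  -- the exponent of `p` in `d`
  obtain ⟨k, m, hpm, hdm⟩ := Nat.exists_eq_pow_mul_and_not_dvd (show d ≠ 0 by omega) p hp.ne_one
  set f : κ[X] := C a * X ^ d + C b with hf
  induction n with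
  | zero =>
    refine ⟨1, 1, by simp, one_pos, ?_, fun ⟨i, hi, _⟩ => absurd hi (Nat.not_lt_zero i)⟩
    simp [add_comm]
  | succ n ih =>
    obtain ⟨Q, E, hQ, hE, hP, hz⟩ := ih
    set y : κ := (fun y => f.eval y)^[n] x with hy
    have e1 : ((f.comp)^[n + 1] X).comp (X + C x) = f.comp (C y + X ^ E * Q) := by
      rw [Function.iterate_succ_apply', comp_assoc, hP]
    have e2 : (fun y => f.eval y)^[n + 1] x = a * y ^ d + b := by
      rw [Function.iterate_succ_apply', ← hy, hf]
      simp
    have e3 : f.comp (C y + X ^ E * Q) = C a * (C y + X ^ E * Q) ^ d + C b := by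
      rw [hf]
      simp
    rcases eq_or_ne y 0 with hy0 | hy0
    · refine ⟨C a * Q ^ d, E * d, ?_, Nat.mul_pos hE (by omega), ?_, fun _ => ⟨E, mul_comm _ _⟩⟩
      · rw [coeff_C_mul, coeff_zero_eq_eval_zero, eval_pow, ← coeff_zero_eq_eval_zero]
        exact mul_ne_zero ha (pow_ne_zero d hQ)
      · rw [e1, e2, e3, hy0, C_0, zero_add, zero_pow (by omega), mul_zero, zero_add, mul_pow,
          ← pow_mul]
        ring
    · set Y : κ[X] := C y + X ^ E * Q with hY
      set S : κ[X] := ∑ i ∈ Finset.range m, Y ^ i * C y ^ (m - 1 - i) with hS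
      have hgs : S * (Y - C y) = Y ^ m - C y ^ m := (Commute.all Y (C y)).geom_sum₂_mul m
      have hYy : Y - C y = X ^ E * Q := by rw [hY, add_sub_cancel_left]
      have hY0 : Y.eval 0 = y := by
        rw [hY, eval_add, eval_C, eval_mul, eval_pow, eval_X, zero_pow hE.ne', zero_mul, add_zero]
      have hmκ : (m : κ) ≠ 0 := fun h => hpm ((CharP.cast_eq_zero_iff κ p m).mp h)
      have hS0 : (S * Q).coeff 0 ≠ 0 := by
        rw [coeff_zero_eq_eval_zero, eval_mul, hS, eval_finsetSum, ← coeff_zero_eq_eval_zero]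
        have h1 : ∀ i ∈ Finset.range m, (Y ^ i * C y ^ (m - 1 - i)).eval 0 = y ^ (m - 1) := by
          intro i hi
          rw [Finset.mem_range] at hi
          rw [eval_mul, eval_pow, eval_pow, eval_C, hY0, ← pow_add,
            show i + (m - 1 - i) = m - 1 by omega]
        rw [Finset.sum_congr rfl h1, Finset.sum_const, Finset.card_range, nsmul_eq_mul]
        exact mul_ne_zero (mul_ne_zero hmκ (pow_ne_zero _ hy0)) hQ
      refine ⟨C a * (S * Q) ^ p ^ k, E * p ^ k, ?_, Nat.mul_pos hE (pow_pos hp.pos k), ?_, ?_⟩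
      · rw [coeff_C_mul, coeff_zero_eq_eval_zero, eval_pow, ← coeff_zero_eq_eval_zero]
        exact mul_ne_zero ha (pow_ne_zero _ hS0)
      · rw [e1, e2, e3]
        have e4 : Y ^ d = C y ^ d + (X ^ E * (S * Q)) ^ p ^ k := by
          have e5 : X ^ E * (S * Q) = Y ^ m - C y ^ m := by
            rw [← hgs, hYy]; ring
          rw [e5, sub_pow_char_pow, ← pow_mul, ← pow_mul, mul_comm m, ← hdm]
          ring
        rw [e4, C_add, C_mul, C_pow, mul_pow, ← pow_mul]
        ring
      · rintro ⟨i, hi, h0⟩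
        rcases Nat.lt_succ_iff_lt_or_eq.mp hi with h | h
        · exact (hz ⟨i, h, h0⟩).mul_right _
        · rw [h] at h0
          exact absurd h0 hy0

end Dom

section Red

open Pool.Agent.TameArb

variable {K : Type} [Field K] {v : Valuation K ℤᵐ⁰}

theorem map_iter_comp {R S : Type} [CommRing R] [CommRing S] (f : R →+* S) (P : R[X]) (n : ℕ) :
    ((P.comp)^[n] X).map f = ((P.map f).comp)^[n] X := by
  induction n with
  | zero => simp
  | succ n ih =>
    rw [Function.iterate_succ_apply', Function.iterate_succ_apply', Polynomial.map_comp, ih]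

theorem map_iter_eval {R S : Type} [CommRing R] [CommRing S] (f : R →+* S) (P : R[X]) (n : ℕ)
    (x : R) : f ((fun y => P.eval y)^[n] x) = (fun y => (P.map f).eval y)^[n] (f x) := by
  induction n with
  | zero => rfl
  | succ n ih =>
    rw [Function.iterate_succ_apply', Function.iterate_succ_apply', ← ih]
    exact (eval_map_apply f _).symm

/-- **Polynomials that are unicritical modulo a place.** -/
theorem sup_val' {φ : K[X]} (hd : 2 ≤ φ.natDegree) (hG : Good v φ)
    {p : ℕ} (hp' : p.Prime) (hpv : v (p : K) < 1)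
    (hu : ∀ i, 0 < i → i < φ.natDegree → v (φ.coeff i) < 1) {x : K} (hx : v x ≤ 1)
    (h0 : ∃ n, v ((fun y => φ.eval y)^[n] x) < 1)
    (hper : ∃ n, 0 < n ∧ v ((fun y => φ.eval y)^[n] x - x) < 1) :
    ∃ N e : ℕ, 0 < N ∧ 2 ≤ e ∧ φ.natDegree ∣ e ∧
      (∀ j < e, v ((((φ.comp)^[N] X).comp (X + C x) - C x).coeff j) < 1) ∧
      v ((((φ.comp)^[N] X).comp (X + C x) - C x).coeff e) = 1 := by
  obtain ⟨φ', hφ'⟩ := exists_lift hG.int
  set r : v.integer →+* (v.integer ⧸ mI v) := Ideal.Quotient.mk (mI v) with hr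
  have hrv : ∀ a : v.integer, r a = 0 ↔ v (a : K) < 1 := by
    intro a
    rw [hr, Ideal.Quotient.eq_zero_iff_mem, mem_mI]
  have hco : ∀ i, ((φ'.coeff i : v.integer) : K) = φ.coeff i := by
    intro i
    rw [← hφ', coeff_map]
    rfl
  set d := φ.natDegree with hdd
  -- the reduction
  have hf : φ'.map r = C (r (φ'.coeff d)) * X ^ d + C (r (φ'.coeff 0)) := by
    ext i
    rw [coeff_map, coeff_add, coeff_C_mul, coeff_X_pow, coeff_C]
    rcases Nat.eq_zero_or_pos i with rfl | hi
    · rw [if_neg (by omega), if_pos rfl, mul_zero, zero_add]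
    rcases lt_trichotomy i d with h | h | h
    · rw [if_neg (by omega), if_neg (by omega), mul_zero, add_zero, hrv, hco]
      exact hu i hi h
    · rw [if_pos h, if_neg (by omega), mul_one, add_zero, h]
    · rw [if_neg (by omega), if_neg (by omega), mul_zero, add_zero, hrv, hco,
        coeff_eq_zero_of_natDegree_lt (by omega), map_zero]
      exact zero_lt_one
  have ha : r (φ'.coeff d) ≠ 0 := by
    intro h
    rw [hrv, hco] at h
    have h1 : v (φ.coeff d) = 1 := hG.lead
    rw [h1] at h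
    exact lt_irrefl _ h
  have hchar : CharP (v.integer ⧸ mI v) p := by
    rw [CharP.charP_iff_prime_eq_zero hp']
    have h1 : r (p : v.integer) = 0 := by
      rw [hrv]
      have h2 : ((p : v.integer) : K) = (p : K) := by push_cast; rfl
      rw [h2]
      exact hpv
    rwa [map_natCast] at h1
  set x' : v.integer := ⟨x, hx⟩ with hx'
  have hev : ∀ n, ((((fun y => φ'.eval y)^[n] x') : v.integer) : K) =
      (fun y => φ.eval y)^[n] x := by
    intro n
    have h1 := map_iter_eval v.integer.subtype φ' n x'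
    rw [hφ'] at h1
    exact h1
  have hevr : ∀ n, r ((fun y => φ'.eval y)^[n] x') =
      (fun y => (φ'.map r).eval y)^[n] (r x') := fun n => map_iter_eval r φ' n x'
  obtain ⟨N, hN, hp⟩ := hper
  obtain ⟨m, hm⟩ := h0
  have hper' : Function.IsPeriodicPt (fun y => (φ'.map r).eval y) N (r x') := by
    show (fun y => (φ'.map r).eval y)^[N] (r x') = r x'
    rw [← hevr, ← sub_eq_zero, ← map_sub, hrv]
    push_cast
    rw [hev]
    exact hp
  have hzero : (fun y => (φ'.map r).eval y)^[m % N] (r x') = 0 := by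
    rw [hper'.iterate_mod_apply, ← hevr, hrv, hev]
    exact hm
  obtain ⟨Q, E, hQ, hE, hP, hz⟩ := ord_iter' (b := r (φ'.coeff 0)) ha (d := d) (by omega) hp'
    (r x') N
  rw [← hf] at hP hz
  have hdE : d ∣ E := hz ⟨m % N, Nat.mod_lt _ hN, hzero⟩
  have hPe : ((((φ.comp)^[N] X).comp (X + C x) - C x)) =
      ((((φ'.comp)^[N] X).comp (X + C x') - C x')).map v.integer.subtype := by
    rw [Polynomial.map_sub, Polynomial.map_comp, map_iter_comp, hφ', Polynomial.map_add, map_X,
      map_C]
    rfl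
  have hPr : ((((φ'.comp)^[N] X).comp (X + C x') - C x')).map r = X ^ E * Q := by
    rw [Polynomial.map_sub, Polynomial.map_comp, map_iter_comp, Polynomial.map_add, map_X,
      map_C, hP]
    have h1 : (fun y => (φ'.map r).eval y)^[N] (r x') = r x' := hper'
    rw [h1, add_sub_cancel_left]
  have hc : ∀ j, v ((((φ.comp)^[N] X).comp (X + C x) - C x).coeff j) < 1 ↔
      (X ^ E * Q).coeff j = 0 := by
    intro j
    rw [← hPr, coeff_map, hrv, hPe, coeff_map]
    rfl
  have hle : ∀ j, v ((((φ.comp)^[N] X).comp (X + C x) - C x).coeff j) ≤ 1 := by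
    intro j
    rw [hPe, coeff_map]
    exact (((((φ'.comp)^[N] X).comp (X + C x') - C x')).coeff j).2
  refine ⟨N, E, hN, hd.trans (Nat.le_of_dvd hE hdE), hdE, ?_, ?_⟩
  · intro j hj
    rw [hc, coeff_X_pow_mul', if_neg (by omega)]
  · apply le_antisymm (hle _)
    rw [← not_lt, hc, coeff_X_pow_mul', if_pos le_rfl, Nat.sub_self]
    exact hQ

end Red

/-- **Polynomials that are unicritical modulo a prime**, all residue cycles through `0`. -/
theorem sup_uni' {K : Type} [Field K] [NumberField K] {φ : K[X]} (hd : 2 ≤ φ.natDegree)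
    (v : HeightOneSpectrum (𝓞 K)) (hG : TameArb.Good (v.valuation K) φ)
    {p : ℕ} (hp : p.Prime) (hpv : v.valuation K (p : K) < 1)
    (hu : ∀ i, 0 < i → i < φ.natDegree → v.valuation K (φ.coeff i) < 1)
    (h0 : ∀ x : K, v.valuation K x ≤ 1 →
      ∃ n, v.valuation K ((fun y => φ.eval y)^[n] x) < 1) :
    ∀ x : K, v.valuation K x ≤ 1 →
      (∃ n, 0 < n ∧ v.valuation K ((fun y => φ.eval y)^[n] x - x) < 1) →
      ∃ N e : ℕ, 0 < N ∧ 2 ≤ e ∧ φ.natDegree ∣ e ∧
        (∀ j < e, v.valuation K ((((φ.comp)^[N] X).comp (X + C x) - C x).coeff j) < 1) ∧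
        v.valuation K ((((φ.comp)^[N] X).comp (X + C x) - C x).coeff e) = 1 :=
  fun x hx hper => sup_val' hd hG hp hpv hu hx (h0 x hx) hper

end Pool.Agent.TFS5
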