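import Mathlib

/-!
# At least five sixths of the integers `c`, for every degree `d`
-/

set_option autoImplicit false

namespace Pool.Agent.TFS5

/-- the residues of `c` modulo six for odd `d` (`b = true`) and for even `d` -/
def CovD (b : Bool) (r : ℕ) (e : Bool) : Prop :=
  r % 2 = 1 ∨ (b = true ∧ r % 3 ≠ 0) ∨ (b = false ∧ e = true) ∨
    (b = false ∧ e = false ∧ r % 3 = 1)

instance (b : Bool) (r : ℕ) (e : Bool) : Decidable (CovD b r e) := by
  unfold CovD
  infer_instance

/-- the covered residue classes -/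
def TD (b : Bool) : Finset (ℕ × Bool) :=
  ((Finset.Icc 1 6) ×ˢ (Finset.univ : Finset Bool)).filter (fun t => CovD b t.1 t.2)

theorem TD_card (b : Bool) : (TD b).card = 10 := by
  cases b <;> decide

theorem mem_TD {b : Bool} {t : ℕ × Bool} (h : t ∈ TD b) :
    (1 ≤ t.1 ∧ t.1 ≤ 6) ∧ CovD b t.1 t.2 := by
  rw [TD, Finset.mem_filter, Finset.mem_product, Finset.mem_Icc] at h
  exact ⟨h.1.1, h.2⟩

/-- the integer with a given residue -/
def prD (u : ℕ × (ℕ × Bool)) : ℤ :=
  if u.2.2 then ((6 * u.1 + u.2.1 : ℕ) : ℤ) else -((6 * u.1 + u.2.1 : ℕ) : ℤ)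

/-- **Five sixths of the integers `c`, for every degree.** -/
theorem five_sixths_d (G : ℤ → Prop) {d : ℕ} (h0 : G 0) (h1 : ∀ c, Odd c → G c)
    (h2 : Odd d → ∀ c, ¬ (3 : ℤ) ∣ c → G c) (h3 : Even d → ∀ c, 0 < c → G c)
    (h4 : Even d → ∀ c, (3 : ℤ) ∣ c + 1 → G c) (N : ℕ) :
    5 * (12 * N + 1) ≤ 6 * {c : ℤ | |c| ≤ 6 * N ∧ G c}.ncard := by
  classical
  set S : Set ℤ := {c : ℤ | |c| ≤ 6 * N ∧ G c} with hS
  have hfin : S.Finite := by
    refine Set.Finite.subset (Finset.Icc (-(6 * N : ℤ)) (6 * N)).finite_toSet ?_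
    rintro c ⟨hc, -⟩
    rw [Finset.mem_coe, Finset.mem_Icc]
    exact abs_le.mp hc
  obtain ⟨b, hb1, hb2⟩ : ∃ b : Bool, (b = true → Odd d) ∧ (b = false → Even d) := by
    rcases Nat.even_or_odd d with h | h
    · exact ⟨false, fun h' => absurd h' (by simp), fun _ => h⟩
    · exact ⟨true, fun _ => h, fun h' => absurd h' (by simp)⟩
  set U : Finset (ℕ × (ℕ × Bool)) := Finset.range N ×ˢ TD b with hU
  set A : Finset ℤ := U.image prD with hA
  have hcA : A.card = N * 10 := by
    rw [hA, Finset.card_image_of_injOn, hU, Finset.card_product, Finset.card_range, TD_card]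
    rintro ⟨k, r, e⟩ hu ⟨k', r', e'⟩ hu' heq
    rw [Finset.mem_coe, hU, Finset.mem_product] at hu hu'
    obtain ⟨a1, -⟩ := mem_TD hu.2
    obtain ⟨b1, -⟩ := mem_TD hu'.2
    simp only at a1 b1
    simp only [prD] at heq
    have hk : k = k' ∧ r = r' ∧ e = e' := by
      cases e <;> cases e' <;> simp only [if_true, if_false, Bool.false_eq_true] at heq
      · refine ⟨?_, ?_, rfl⟩ <;> omega
      · exfalso; omega
      · exfalso; omega
      · refine ⟨?_, ?_, rfl⟩ <;> omega
    obtain ⟨rfl, rfl, rfl⟩ := hk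
    rfl
  have hdis : (0 : ℤ) ∉ A := by
    intro hx
    rw [hA, Finset.mem_image] at hx
    obtain ⟨⟨k, r, e⟩, hu, hx⟩ := hx
    rw [hU, Finset.mem_product] at hu
    obtain ⟨a1, -⟩ := mem_TD hu.2
    simp only at a1
    simp only [prD] at hx
    cases e <;> simp only [if_true, if_false, Bool.false_eq_true] at hx <;> omega
  have hsub : (↑(insert (0 : ℤ) A) : Set ℤ) ⊆ S := by
    intro x hx
    rw [Finset.mem_coe, Finset.mem_insert] at hx
    rcases hx with rfl | hx
    · exact ⟨by rw [abs_zero]; positivity, h0⟩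
    · rw [hA, Finset.mem_image] at hx
      obtain ⟨⟨k, r, e⟩, hu, rfl⟩ := hx
      rw [hU, Finset.mem_product, Finset.mem_range] at hu
      obtain ⟨a1, a3⟩ := mem_TD hu.2
      simp only at a1 a3 hu
      obtain ⟨hk, -⟩ := hu
      refine ⟨?_, ?_⟩
      · simp only [prD]
        rw [abs_le]
        cases e <;> simp only [if_true, if_false, Bool.false_eq_true] <;>
          constructor <;> push_cast <;> omega
      · simp only [prD]
        rcases a3 with q1 | ⟨q1, q3⟩ | ⟨q1, q2⟩ | ⟨q1, q3, q4⟩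
        · apply h1
          rw [Int.odd_iff]
          cases e <;> simp only [if_true, if_false, Bool.false_eq_true] <;> omega
        · apply h2 (hb1 q1)
          cases e <;> simp only [if_true, if_false, Bool.false_eq_true] <;> omega
        · subst q2
          apply h3 (hb2 q1)
          simp only [if_true]; omega
        · subst q3
          apply h4 (hb2 q1)
          simp only [Bool.false_eq_true, if_false]; omega
  have hcard : (insert (0 : ℤ) A).card ≤ S.ncard := by
    rw [← Set.ncard_coe_finset]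
    exact Set.ncard_le_ncard hsub hfin
  rw [Finset.card_insert_of_notMem hdis, hcA] at hcard
  omega

end Pool.Agent.TFS5
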