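import Mathlib

/-!
# The orbit of `0` under `x ^ d + c` for `c` not an integer
-/

set_option autoImplicit false

namespace Pool.Agent.TFS5

/-- the forward orbit of `0` is infinite if `c` is not an integer -/
theorem orb_nonint {d : ℕ} (hd : 2 ≤ d) (c : ℚ) (hc : c.den ≠ 1) :
    ∀ i j, i < j → (fun x : ℚ => x ^ d + c)^[i] 0 ≠ (fun x : ℚ => x ^ d + c)^[j] 0 := by
  obtain ⟨q, hq, hqd⟩ := Nat.exists_prime_and_dvd hc
  have hfact : Fact q.Prime := ⟨hq⟩
  have hc0 : c ≠ 0 := by
    rintro rfl
    exact hc rfl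
  have hv : padicValRat q c < 0 := by
    have h1 : ¬ (q : ℤ) ∣ c.num := by
      intro h
      have h2 : q ∣ c.num.natAbs := Int.natCast_dvd.mp h
      have h3 := Nat.dvd_gcd h2 hqd
      rw [c.reduced] at h3
      exact hq.one_lt.ne' (Nat.dvd_one.mp h3)
    have h2 : padicValInt q c.num = 0 := padicValInt.eq_zero_of_not_dvd h1
    have h3 : 1 ≤ padicValNat q c.den := one_le_padicValNat_of_dvd c.den_ne_zero hqd
    rw [padicValRat_def, h2]
    omega
  have key : ∀ n : ℕ, (fun x : ℚ => x ^ d + c)^[n + 1] 0 ≠ 0 ∧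
      padicValRat q ((fun x : ℚ => x ^ d + c)^[n + 1] 0) = (d : ℤ) ^ n * padicValRat q c := by
    intro n
    induction n with
    | zero =>
      rw [Function.iterate_succ_apply']
      simp only [Function.iterate_zero, id_eq]
      rw [zero_pow (by omega), zero_add]
      exact ⟨hc0, by simp⟩
    | succ n ih =>
      obtain ⟨h1, h2⟩ := ih
      rw [Function.iterate_succ_apply']
      generalize (fun x : ℚ => x ^ d + c)^[n + 1] 0 = x at h1 h2
      have h3 : padicValRat q (x ^ d) = (d : ℤ) ^ (n + 1) * padicValRat q c := by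
        rw [padicValRat.pow, h2]
        ring
      have h4 : (1 : ℤ) < (d : ℤ) ^ (n + 1) :=
        one_lt_pow₀ (by exact_mod_cast hd) (Nat.succ_ne_zero n)
      have h5 : padicValRat q (x ^ d) < padicValRat q c := by
        rw [h3]
        nlinarith
      have h6 : x ^ d + c ≠ 0 := by
        intro h
        have h7 : x ^ d = -c := eq_neg_of_add_eq_zero_left h
        rw [h7, padicValRat.neg] at h5
        exact lt_irrefl _ h5
      exact ⟨h6, by
        show padicValRat q (x ^ d + c) = _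
        rw [padicValRat.add_eq_of_lt h6 (pow_ne_zero _ h1) hc0 h5, h3]⟩
  intro i j hij h
  obtain ⟨j', rfl⟩ : ∃ j', j = j' + 1 := ⟨j - 1, by omega⟩
  rcases Nat.eq_zero_or_pos i with rfl | hi
  · exact (key j').1 h.symm
  · obtain ⟨i', rfl⟩ : ∃ i', i = i' + 1 := ⟨i - 1, by omega⟩
    have h1 := (key i').2
    have h2 := (key j').2
    rw [h, h2] at h1
    have h3 : (d : ℤ) ^ j' = (d : ℤ) ^ i' := mul_right_cancel₀ hv.ne h1
    have h4 : (d : ℤ) ^ i' < (d : ℤ) ^ j' :=
      pow_lt_pow_right₀ (by exact_mod_cast hd) (by omega)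
    omega

end Pool.Agent.TFS5
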