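import Pool.Agent.TFS5.Reach

/-!
# The maps `x ^ d + c` with a rational `c` that is integral at `q`
-/

set_option autoImplicit false

open IsDedekindDomain NumberField Polynomial

namespace Pool.Agent.TFS5

/-- every residue class modulo `q` reaches zero, for a rational `c` congruent to the integer `c'` -/
theorem reach_rat {d : ℕ} (c : ℚ) (c' : ℤ) (q : ℕ) (hq : q.Prime) (hcd : ¬ q ∣ c.den)
    (hcc : (q : ℤ) ∣ c.num - c' * (c.den : ℤ))
    (h : ∀ z : ℤ, ∃ n, (q : ℤ) ∣ (fun y : ℤ => y ^ d + c')^[n] z) :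
    ∃ v : HeightOneSpectrum (𝓞 ℚ), v.valuation ℚ (q : ℚ) < 1 ∧ v.valuation ℚ c ≤ 1 ∧
      ∀ x : ℚ, v.valuation ℚ x ≤ 1 →
        ∃ n, v.valuation ℚ ((fun y => (X ^ d + C c : ℚ[X]).eval y)^[n] x) < 1 := by
  obtain ⟨v, h1, h2⟩ := Pool.Agent.Arb.exists_at_prime hq
  have hvq : v.valuation ℚ (q : ℚ) < 1 := by
    rw [h1, ← WithZero.exp_zero, WithZero.exp_lt_exp]
    norm_num
  have hint : ∀ z : ℤ, v.valuation ℚ (z : ℚ) ≤ 1 := by
    intro z
    have h := v.valuation_le_one (K := ℚ) (z : 𝓞 ℚ)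
    have e : algebraMap (𝓞 ℚ) ℚ (z : 𝓞 ℚ) = (z : ℚ) := map_intCast (algebraMap (𝓞 ℚ) ℚ) z
    have h' : v.valuation ℚ (algebraMap (𝓞 ℚ) ℚ (z : 𝓞 ℚ)) ≤ 1 := h
    rwa [e] at h'
  have hdvd : ∀ z : ℤ, (q : ℤ) ∣ z → v.valuation ℚ (z : ℚ) < 1 := by
    rintro z ⟨w, rfl⟩
    have e : ((q * w : ℤ) : ℚ) = (w : ℚ) * (q : ℚ) := by push_cast; ring
    rw [e, map_mul]
    exact Pool.Agent.TameArb.mul_lt_one_aux (hint w) hvq
  -- `c` is congruent to `c'`
  have hcden : ¬ (q : ℤ) ∣ (c.den : ℤ) := fun h => hcd (by exact_mod_cast h)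
  have hcdv : v.valuation ℚ ((c.den : ℤ) : ℚ) = 1 := h2 _ hcden
  have hcxe : c * ((c.den : ℤ) : ℚ) = (c.num : ℚ) := by
    have := Rat.mul_den_eq_num c
    exact_mod_cast this
  have hcv : v.valuation ℚ (c - (c' : ℚ)) < 1 := by
    have h8 : v.valuation ℚ ((c - (c' : ℚ)) * ((c.den : ℤ) : ℚ)) < 1 := by
      have e : (c - (c' : ℚ)) * ((c.den : ℤ) : ℚ) = ((c.num - c' * (c.den : ℤ) : ℤ) : ℚ) := by
        push_cast
        push_cast at hcxe
        linear_combination hcxe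
      rw [e]
      exact hdvd _ hcc
    rwa [map_mul, hcdv, mul_one] at h8
  have hc1 : v.valuation ℚ c ≤ 1 := by
    have e : c = (c - (c' : ℚ)) + (c' : ℚ) := by ring
    rw [e]
    exact Valuation.map_add_le _ hcv.le (hint c')
  refine ⟨v, hvq, hc1, fun x hx => ?_⟩
  -- the denominator is a unit
  have hxe : x * ((x.den : ℤ) : ℚ) = (x.num : ℚ) := by
    have := Rat.mul_den_eq_num x
    exact_mod_cast this
  have hden : ¬ (q : ℤ) ∣ (x.den : ℤ) := by
    intro hd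
    have h3 : v.valuation ℚ (x.num : ℚ) < 1 := by
      rw [← hxe, map_mul]
      exact Pool.Agent.TameArb.mul_lt_one_aux hx (hdvd _ hd)
    have h4 : (q : ℤ) ∣ x.num := by
      by_contra hno
      rw [h2 _ hno] at h3
      exact lt_irrefl _ h3
    have h5 : q ∣ x.num.natAbs := Int.natCast_dvd.mp h4
    have h6 : q ∣ x.den := by exact_mod_cast hd
    have h7 := Nat.dvd_gcd h5 h6
    rw [x.reduced] at h7
    exact hq.one_lt.ne' (Nat.dvd_one.mp h7)
  have hdv : v.valuation ℚ ((x.den : ℤ) : ℚ) = 1 := h2 _ hden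
  -- an integer congruent to `x`
  obtain ⟨z, hz⟩ : ∃ z : ℤ, v.valuation ℚ (x - (z : ℚ)) < 1 := by
    have hcop : IsCoprime (x.den : ℤ) (q : ℤ) := by
      rw [Nat.isCoprime_iff_coprime]
      refine ((Nat.Prime.coprime_iff_not_dvd hq).mpr ?_).symm
      intro h6
      exact hden (by exact_mod_cast h6)
    obtain ⟨s, t, hst⟩ := hcop
    refine ⟨x.num * s, ?_⟩
    have h8 : v.valuation ℚ ((x - ((x.num * s : ℤ) : ℚ)) * ((x.den : ℤ) : ℚ)) < 1 := by
      have e : (x - ((x.num * s : ℤ) : ℚ)) * ((x.den : ℤ) : ℚ) =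
          ((x.num * t : ℤ) : ℚ) * (q : ℚ) := by
        have hst' : (s : ℚ) * ((x.den : ℤ) : ℚ) + (t : ℚ) * (q : ℚ) = 1 := by exact_mod_cast hst
        push_cast
        push_cast at hst' hxe
        linear_combination hxe - (x.num : ℚ) * hst'
      rw [e, map_mul]
      exact Pool.Agent.TameArb.mul_lt_one_aux (hint _) hvq
    rwa [map_mul, hdv, mul_one] at h8
  obtain ⟨n, hn⟩ := h z
  refine ⟨n, ?_⟩
  have hpow : ∀ (a b : ℚ), v.valuation ℚ a ≤ 1 → v.valuation ℚ b ≤ 1 →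
      v.valuation ℚ (a - b) < 1 → ∀ s : ℕ, v.valuation ℚ (a ^ s - b ^ s) < 1 := by
    intro a b ha hb hab s
    induction s with
    | zero => simp
    | succ s ih =>
      have e2 : a ^ (s + 1) - b ^ (s + 1) = a ^ s * (a - b) + b * (a ^ s - b ^ s) := by ring
      rw [e2]
      refine Valuation.map_add_lt _ ?_ ?_
      · rw [map_mul]
        refine Pool.Agent.TameArb.mul_lt_one_aux ?_ hab
        rw [map_pow]
        exact pow_le_one₀ zero_le ha
      · rw [map_mul]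
        exact Pool.Agent.TameArb.mul_lt_one_aux hb ih
  have key : ∀ m : ℕ, v.valuation ℚ ((fun y => (X ^ d + C c : ℚ[X]).eval y)^[m] x) ≤ 1 ∧
      v.valuation ℚ ((fun y => (X ^ d + C c : ℚ[X]).eval y)^[m] x -
        (((fun y : ℤ => y ^ d + c')^[m] z : ℤ) : ℚ)) < 1 := by
    intro m
    induction m with
    | zero => exact ⟨hx, hz⟩
    | succ m ih =>
      rw [Function.iterate_succ_apply', Function.iterate_succ_apply']
      set a := (fun y => (X ^ d + C c : ℚ[X]).eval y)^[m] x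
      set b := (fun y : ℤ => y ^ d + c')^[m] z
      have e3 : (X ^ d + C c : ℚ[X]).eval a = a ^ d + c := by simp
      have e4 : a ^ d + c - (((fun y : ℤ => y ^ d + c') b : ℤ) : ℚ) =
          (a ^ d - (b : ℚ) ^ d) + (c - (c' : ℚ)) := by
        push_cast
        ring
      show v.valuation ℚ ((X ^ d + C c : ℚ[X]).eval a) ≤ 1 ∧
        v.valuation ℚ ((X ^ d + C c : ℚ[X]).eval a -
          (((fun y : ℤ => y ^ d + c') b : ℤ) : ℚ)) < 1
      rw [e3, e4]
      refine ⟨Valuation.map_add_le _ ?_ hc1,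
        Valuation.map_add_lt _ (hpow a b ih.1 (hint b) ih.2 d) hcv⟩
      rw [map_pow]
      exact pow_le_one₀ zero_le ih.1
  have h9 := (key n).2
  have e5 : (fun y => (X ^ d + C c : ℚ[X]).eval y)^[n] x =
      ((fun y => (X ^ d + C c : ℚ[X]).eval y)^[n] x -
        (((fun y : ℤ => y ^ d + c')^[n] z : ℤ) : ℚ)) + (((fun y : ℤ => y ^ d + c')^[n] z : ℤ) : ℚ) := by
    ring
  rw [e5]
  exact Valuation.map_add_lt _ h9 (hdvd _ hn)

/-- `c` a quotient of odd integers, every `d` -/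
theorem rat_two {d : ℕ} (c : ℚ) (hn : Odd c.num) (hc : Odd c.den) :
    ∃ v : HeightOneSpectrum (𝓞 ℚ), v.valuation ℚ (2 : ℚ) < 1 ∧ v.valuation ℚ c ≤ 1 ∧
      ∀ x : ℚ, v.valuation ℚ x ≤ 1 →
        ∃ n, v.valuation ℚ ((fun y => (X ^ d + C c : ℚ[X]).eval y)^[n] x) < 1 := by
  have h := reach_rat (d := d) c 1 2 Nat.prime_two
    (fun h => by rw [Nat.odd_iff] at hc; omega)
    (by
      have h1 : Odd (c.den : ℤ) := by exact_mod_cast hc
      have h2 : Even (c.num - 1 * (c.den : ℤ)) := by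
        rw [one_mul]
        exact hn.sub_odd h1
      exact_mod_cast h2.two_dvd)
    (int_two 1 odd_one)
  exact_mod_cast h

end Pool.Agent.TFS5
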