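import Pool.Agent.Arb.Rat2
import Pool.Agent.NDE.Pol

/-!
# The maps `x ^ d + c` modulo a prime at which every residue class reaches zero
-/

set_option autoImplicit false

open IsDedekindDomain NumberField Polynomial

namespace Pool.Agent.TFS5

/-- every residue class modulo `q` reaches zero, in integers -/
theorem reach_int' {d : ℕ} (c : ℤ) (q : ℕ) (hq : q.Prime)
    (h : ∀ z : ℤ, ∃ n, (q : ℤ) ∣ (fun y : ℤ => y ^ d + c)^[n] z) :
    ∃ v : HeightOneSpectrum (𝓞 ℚ), v.valuation ℚ (q : ℚ) < 1 ∧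
      ∀ x : ℚ, v.valuation ℚ x ≤ 1 →
        ∃ n, v.valuation ℚ ((fun y => (X ^ d + C (c : ℚ) : ℚ[X]).eval y)^[n] x) < 1 := by
  obtain ⟨v, h1, h2⟩ := Pool.Agent.Arb.exists_at_prime hq
  have hvq : v.valuation ℚ (q : ℚ) < 1 := by
    rw [h1, ← WithZero.exp_zero, WithZero.exp_lt_exp]
    norm_num
  have hint : ∀ z : ℤ, v.valuation ℚ (z : ℚ) ≤ 1 := by
    intro z
    have h := v.valuation_le_one (K := ℚ) (z : 𝓞 ℚ)
    have e : algebraMap (𝓞 ℚ) ℚ (z : 𝓞 ℚ) = (z : ℚ) := map_intCast (algebraMap (𝓞 ℚ) ℚ) z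
    have h' : v.valuation ℚ (algebraMap (𝓞 ℚ) ℚ (z : 𝓞 ℚ)) ≤ 1 := h
    rwa [e] at h'
  have hdvd : ∀ z : ℤ, (q : ℤ) ∣ z → v.valuation ℚ (z : ℚ) < 1 := by
    rintro z ⟨w, rfl⟩
    have e : ((q * w : ℤ) : ℚ) = (w : ℚ) * (q : ℚ) := by push_cast; ring
    rw [e, map_mul]
    exact Pool.Agent.TameArb.mul_lt_one_aux (hint w) hvq
  refine ⟨v, hvq, fun x hx => ?_⟩
  -- the denominator is a unit
  have hxe : x * ((x.den : ℤ) : ℚ) = (x.num : ℚ) := by
    have := Rat.mul_den_eq_num x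
    exact_mod_cast this
  have hden : ¬ (q : ℤ) ∣ (x.den : ℤ) := by
    intro hd
    have h3 : v.valuation ℚ (x.num : ℚ) < 1 := by
      rw [← hxe, map_mul]
      exact Pool.Agent.TameArb.mul_lt_one_aux hx (hdvd _ hd)
    have h4 : (q : ℤ) ∣ x.num := by
      by_contra hno
      rw [h2 _ hno] at h3
      exact lt_irrefl _ h3
    have h5 : q ∣ x.num.natAbs := Int.natCast_dvd.mp h4
    have h6 : q ∣ x.den := by exact_mod_cast hd
    have h7 := Nat.dvd_gcd h5 h6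
    rw [x.reduced] at h7
    exact hq.one_lt.ne' (Nat.dvd_one.mp h7)
  have hdv : v.valuation ℚ ((x.den : ℤ) : ℚ) = 1 := h2 _ hden
  -- an integer congruent to `x`
  obtain ⟨z, hz⟩ : ∃ z : ℤ, v.valuation ℚ (x - (z : ℚ)) < 1 := by
    have hcop : IsCoprime (x.den : ℤ) (q : ℤ) := by
      rw [Nat.isCoprime_iff_coprime]
      refine ((Nat.Prime.coprime_iff_not_dvd hq).mpr ?_).symm
      intro h6
      exact hden (by exact_mod_cast h6)
    obtain ⟨s, t, hst⟩ := hcop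
    refine ⟨x.num * s, ?_⟩
    have h8 : v.valuation ℚ ((x - ((x.num * s : ℤ) : ℚ)) * ((x.den : ℤ) : ℚ)) < 1 := by
      have e : (x - ((x.num * s : ℤ) : ℚ)) * ((x.den : ℤ) : ℚ) =
          ((x.num * t : ℤ) : ℚ) * (q : ℚ) := by
        have hst' : (s : ℚ) * ((x.den : ℤ) : ℚ) + (t : ℚ) * (q : ℚ) = 1 := by exact_mod_cast hst
        push_cast
        push_cast at hst' hxe
        linear_combination hxe - (x.num : ℚ) * hst'
      rw [e, map_mul]
      exact Pool.Agent.TameArb.mul_lt_one_aux (hint _) hvq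
    rwa [map_mul, hdv, mul_one] at h8
  obtain ⟨n, hn⟩ := h z
  refine ⟨n, ?_⟩
  have hpow : ∀ (a b : ℚ), v.valuation ℚ a ≤ 1 → v.valuation ℚ b ≤ 1 →
      v.valuation ℚ (a - b) < 1 → ∀ s : ℕ, v.valuation ℚ (a ^ s - b ^ s) < 1 := by
    intro a b ha hb hab s
    induction s with
    | zero => simp
    | succ s ih =>
      have e2 : a ^ (s + 1) - b ^ (s + 1) = a ^ s * (a - b) + b * (a ^ s - b ^ s) := by ring
      rw [e2]
      refine Valuation.map_add_lt _ ?_ ?_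
      · rw [map_mul]
        refine Pool.Agent.TameArb.mul_lt_one_aux ?_ hab
        rw [map_pow]
        exact pow_le_one₀ zero_le ha
      · rw [map_mul]
        exact Pool.Agent.TameArb.mul_lt_one_aux hb ih
  have key : ∀ m : ℕ, v.valuation ℚ ((fun y => (X ^ d + C (c : ℚ) : ℚ[X]).eval y)^[m] x) ≤ 1 ∧
      v.valuation ℚ ((fun y => (X ^ d + C (c : ℚ) : ℚ[X]).eval y)^[m] x -
        (((fun y : ℤ => y ^ d + c)^[m] z : ℤ) : ℚ)) < 1 := by
    intro m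
    induction m with
    | zero => exact ⟨hx, hz⟩
    | succ m ih =>
      rw [Function.iterate_succ_apply', Function.iterate_succ_apply']
      set a := (fun y => (X ^ d + C (c : ℚ) : ℚ[X]).eval y)^[m] x
      set b := (fun y : ℤ => y ^ d + c)^[m] z
      have e3 : (X ^ d + C (c : ℚ) : ℚ[X]).eval a = a ^ d + (c : ℚ) := by simp
      have e4 : a ^ d + (c : ℚ) - (((fun y : ℤ => y ^ d + c) b : ℤ) : ℚ) = a ^ d - (b : ℚ) ^ d := by
        push_cast
        ring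
      show v.valuation ℚ ((X ^ d + C (c : ℚ) : ℚ[X]).eval a) ≤ 1 ∧
        v.valuation ℚ ((X ^ d + C (c : ℚ) : ℚ[X]).eval a -
          (((fun y : ℤ => y ^ d + c) b : ℤ) : ℚ)) < 1
      rw [e3, e4]
      refine ⟨Valuation.map_add_le _ ?_ (hint c), hpow a b ih.1 (hint b) ih.2 d⟩
      rw [map_pow]
      exact pow_le_one₀ zero_le ih.1
  have h9 := (key n).2
  have e5 : (fun y => (X ^ d + C (c : ℚ) : ℚ[X]).eval y)^[n] x =
      ((fun y => (X ^ d + C (c : ℚ) : ℚ[X]).eval y)^[n] x -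
        (((fun y : ℤ => y ^ d + c)^[n] z : ℤ) : ℚ)) + (((fun y : ℤ => y ^ d + c)^[n] z : ℤ) : ℚ) := by
    ring
  rw [e5]
  exact Valuation.map_add_lt _ h9 (hdvd _ hn)

/-- integers modulo `q`: `x ^ d = 1` for the units -/
theorem int_one {d : ℕ} (c : ℤ) (q : ℕ) (hq : q.Prime) (hqc : (q : ℤ) ∣ c + 1) (h : (q - 1) ∣ d)
    (z : ℤ) : ∃ n, (q : ℤ) ∣ (fun y : ℤ => y ^ d + c)^[n] z := by
  by_cases hz : (q : ℤ) ∣ z
  · exact ⟨0, hz⟩
  refine ⟨1, ?_⟩
  have : Fact q.Prime := ⟨hq⟩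
  have hz0 : (z : ZMod q) ≠ 0 := by
    intro h0
    exact hz ((ZMod.intCast_zmod_eq_zero_iff_dvd z q).mp h0)
  have h1 : (z : ZMod q) ^ (q - 1) = 1 := ZMod.pow_card_sub_one_eq_one hz0
  obtain ⟨s, hs⟩ := h
  have h2 : ((z ^ d + c : ℤ) : ZMod q) = 0 := by
    have h3 : ((c + 1 : ℤ) : ZMod q) = 0 := (ZMod.intCast_zmod_eq_zero_iff_dvd _ q).mpr hqc
    push_cast at h3 ⊢
    rw [hs, pow_mul, h1, one_pow, add_comm]
    exact h3
  rw [Function.iterate_one]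
  exact (ZMod.intCast_zmod_eq_zero_iff_dvd _ q).mp h2

/-- integers modulo `q`: `x ^ d = x` -/
theorem int_perm {d : ℕ} (hd : 1 ≤ d) (c : ℤ) (q : ℕ) (hq : q.Prime) (hqc : ¬ (q : ℤ) ∣ c)
    (h : (q - 1) ∣ (d - 1)) (z : ℤ) : ∃ n, (q : ℤ) ∣ (fun y : ℤ => y ^ d + c)^[n] z := by
  have : Fact q.Prime := ⟨hq⟩
  have hc0 : (c : ZMod q) ≠ 0 := by
    intro h0
    exact hqc ((ZMod.intCast_zmod_eq_zero_iff_dvd c q).mp h0)
  obtain ⟨s, hs⟩ := h
  have hpow : ∀ y : ZMod q, y ^ d = y := by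
    intro y
    have e : d = (q - 1) * s + 1 := by omega
    rcases eq_or_ne y 0 with rfl | hy
    · exact zero_pow (by omega)
    · rw [e, pow_succ, pow_mul, ZMod.pow_card_sub_one_eq_one hy, one_pow, one_mul]
  have hit : ∀ n : ℕ, (((fun y : ℤ => y ^ d + c)^[n] z : ℤ) : ZMod q) =
      (z : ZMod q) + (n : ZMod q) * (c : ZMod q) := by
    intro n
    induction n with
    | zero => simp
    | succ n ih =>
      rw [Function.iterate_succ_apply']
      show ((((fun y : ℤ => y ^ d + c)^[n] z) ^ d + c : ℤ) : ZMod q) = _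
      push_cast
      rw [ih, hpow]
      ring
  refine ⟨((-(z : ZMod q)) * (c : ZMod q)⁻¹).val, ?_⟩
  rw [← ZMod.intCast_zmod_eq_zero_iff_dvd, hit, ZMod.natCast_zmod_val, mul_assoc,
    inv_mul_cancel₀ hc0, mul_one]
  ring

/-- odd `c`, every `d` -/
theorem int_two {d : ℕ} (c : ℤ) (hc : Odd c) (z : ℤ) :
    ∃ n, ((2 : ℕ) : ℤ) ∣ (fun y : ℤ => y ^ d + c)^[n] z := by
  apply int_one c 2 Nat.prime_two
  · have := hc.add_odd odd_one
    exact_mod_cast this.two_dvd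
  · exact ⟨d, by norm_num⟩

/-- odd `d`, `c` prime to three -/
theorem int_three {d : ℕ} (hd : Odd d) (c : ℤ) (hc : ¬ (3 : ℤ) ∣ c) (z : ℤ) :
    ∃ n, ((3 : ℕ) : ℤ) ∣ (fun y : ℤ => y ^ d + c)^[n] z := by
  apply int_perm hd.pos c 3 Nat.prime_three (by exact_mod_cast hc)
  obtain ⟨s, hs⟩ := hd
  exact ⟨s, by omega⟩

/-- even `d`, `c = 2` modulo three -/
theorem int_three' {d : ℕ} (hd : Even d) (c : ℤ) (hc : (3 : ℤ) ∣ c + 1) (z : ℤ) :
    ∃ n, ((3 : ℕ) : ℤ) ∣ (fun y : ℤ => y ^ d + c)^[n] z := by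
  apply int_one c 3 Nat.prime_three (by exact_mod_cast hc)
  exact hd.two_dvd

end Pool.Agent.TFS5
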