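import Mathlib

/-!
# At least five sixths of the pairs `(d, c)`
-/

set_option autoImplicit false

namespace Pool.Agent.TFS5

/-- the residues covered by the primes two and three and by the sign -/
def Cov (s r : ℕ) (e : Bool) : Prop :=
  r % 2 = 1 ∨ (s % 2 = 1 ∧ r % 3 ≠ 0) ∨ (s % 2 = 0 ∧ e = true) ∨
    (s % 2 = 0 ∧ e = false ∧ r % 3 = 1)

instance (s r : ℕ) (e : Bool) : Decidable (Cov s r e) := by
  unfold Cov
  infer_instance

/-- the covered residue classes -/
def TT : Finset (ℕ × ℕ × Bool) :=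
  ((Finset.Icc 2 7) ×ˢ ((Finset.Icc 1 6) ×ˢ (Finset.univ : Finset Bool))).filter
    (fun t => Cov t.1 t.2.1 t.2.2)

theorem TT_card : TT.card = 60 := by decide

/-- the pair with given residues -/
def pr (u : (ℕ × ℕ) × (ℕ × ℕ × Bool)) : ℕ × ℤ :=
  (6 * u.1.1 + u.2.1, if u.2.2.2 then ((6 * u.1.2 + u.2.2.1 : ℕ) : ℤ)
    else -((6 * u.1.2 + u.2.2.1 : ℕ) : ℤ))

theorem mem_TT {t : ℕ × ℕ × Bool} (h : t ∈ TT) : (2 ≤ t.1 ∧ t.1 ≤ 7) ∧
    (1 ≤ t.2.1 ∧ t.2.1 ≤ 6) ∧ Cov t.1 t.2.1 t.2.2 := by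
  rw [TT, Finset.mem_filter, Finset.mem_product, Finset.mem_product, Finset.mem_Icc,
    Finset.mem_Icc] at h
  exact ⟨h.1.1, h.1.2.1, h.2⟩

/-- **Five sixths of the pairs.** -/
theorem five_sixths (Good : ℕ → ℤ → Prop)
    (h0 : ∀ d : ℕ, 2 ≤ d → Good d 0)
    (h1 : ∀ (d : ℕ) (c : ℤ), 2 ≤ d → Odd c → Good d c)
    (h2 : ∀ (d : ℕ) (c : ℤ), 2 ≤ d → Odd d → ¬ (3 : ℤ) ∣ c → Good d c)
    (h3 : ∀ (d : ℕ) (c : ℤ), 2 ≤ d → Even d → 0 < c → Good d c)
    (h4 : ∀ (d : ℕ) (c : ℤ), 2 ≤ d → Even d → (3 : ℤ) ∣ c + 1 → Good d c)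
    (M N : ℕ) :
    5 * (6 * M * (12 * N + 1)) ≤
      6 * {p : ℕ × ℤ | (2 ≤ p.1 ∧ p.1 ≤ 6 * M + 1) ∧ |p.2| ≤ 6 * N ∧ Good p.1 p.2}.ncard := by
  classical
  set S : Set (ℕ × ℤ) := {p : ℕ × ℤ | (2 ≤ p.1 ∧ p.1 ≤ 6 * M + 1) ∧ |p.2| ≤ 6 * N ∧ Good p.1 p.2}
    with hS
  have hfin : S.Finite := by
    refine Set.Finite.subset ((Finset.Icc 2 (6 * M + 1) ×ˢ
      Finset.Icc (-(6 * N : ℤ)) (6 * N)).finite_toSet) ?_
    rintro ⟨d, c⟩ ⟨⟨ha, hb⟩, hc, -⟩
    rw [Finset.mem_coe, Finset.mem_product, Finset.mem_Icc, Finset.mem_Icc]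
    exact ⟨⟨ha, hb⟩, abs_le.mp hc⟩
  set U : Finset ((ℕ × ℕ) × (ℕ × ℕ × Bool)) := (Finset.range M ×ˢ Finset.range N) ×ˢ TT with hU
  set A : Finset (ℕ × ℤ) := U.image pr with hA
  set B : Finset (ℕ × ℤ) := (Finset.range (6 * M)).image (fun i => (i + 2, (0 : ℤ))) with hB
  have hcA : A.card = M * N * 60 := by
    rw [hA, Finset.card_image_of_injOn, hU, Finset.card_product, Finset.card_product,
      Finset.card_range, Finset.card_range, TT_card]
    rintro ⟨⟨j, k⟩, s, r, e⟩ hu ⟨⟨j', k'⟩, s', r', e'⟩ hu' heq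
    rw [Finset.mem_coe, hU, Finset.mem_product] at hu hu'
    obtain ⟨a1, a2, -⟩ := mem_TT hu.2
    obtain ⟨b1, b2, -⟩ := mem_TT hu'.2
    simp only at a1 a2 b1 b2
    simp only [pr, Prod.mk.injEq] at heq
    obtain ⟨e1, e2⟩ := heq
    have hj : j = j' ∧ s = s' := by omega
    have hk : k = k' ∧ r = r' ∧ e = e' := by
      cases e <;> cases e' <;> simp only [if_true, if_false, Bool.false_eq_true] at e2
      · refine ⟨?_, ?_, rfl⟩ <;> omega
      · exfalso; omega
      · exfalso; omega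
      · refine ⟨?_, ?_, rfl⟩ <;> omega
    obtain ⟨rfl, rfl⟩ := hj
    obtain ⟨rfl, rfl, rfl⟩ := hk
    rfl
  have hcB : B.card = 6 * M := by
    rw [hB, Finset.card_image_of_injective, Finset.card_range]
    intro a b hab
    simp only [Prod.mk.injEq, and_true] at hab
    omega
  have hdis : Disjoint A B := by
    rw [Finset.disjoint_left]
    intro x hx hx'
    rw [hA, Finset.mem_image] at hx
    rw [hB, Finset.mem_image] at hx'
    obtain ⟨⟨⟨j, k⟩, s, r, e⟩, hu, rfl⟩ := hx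
    obtain ⟨i, -, hi⟩ := hx'
    rw [hU, Finset.mem_product] at hu
    obtain ⟨-, a2, -⟩ := mem_TT hu.2
    simp only at a2
    simp only [pr, Prod.mk.injEq] at hi
    have h5 := hi.2
    cases e <;> simp only [if_true, if_false, Bool.false_eq_true] at h5 <;> omega
  have hsub : (↑(A ∪ B) : Set (ℕ × ℤ)) ⊆ S := by
    intro x hx
    rw [Finset.mem_coe, Finset.mem_union] at hx
    rcases hx with hx | hx
    · rw [hA, Finset.mem_image] at hx
      obtain ⟨⟨⟨j, k⟩, s, r, e⟩, hu, rfl⟩ := hx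
      rw [hU, Finset.mem_product, Finset.mem_product, Finset.mem_range, Finset.mem_range] at hu
      obtain ⟨a1, a2, a3⟩ := mem_TT hu.2
      simp only at a1 a2 a3 hu
      obtain ⟨⟨hj, hk⟩, -⟩ := hu
      refine ⟨⟨?_, ?_⟩, ?_, ?_⟩
      · simp only [pr]; omega
      · simp only [pr]; omega
      · simp only [pr]
        rw [abs_le]
        cases e <;> simp only [if_true, if_false, Bool.false_eq_true] <;>
          constructor <;> push_cast <;> omega
      · simp only [pr]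
        have hd2 : 2 ≤ 6 * j + s := by omega
        rcases a3 with q1 | ⟨q1, q3⟩ | ⟨q1, q2⟩ | ⟨q1, q3, q4⟩
        · apply h1 _ _ hd2
          rw [Int.odd_iff]
          cases e <;> simp only [if_true, if_false, Bool.false_eq_true] <;> omega
        · apply h2 _ _ hd2
          · rw [Nat.odd_iff]; omega
          · cases e <;> simp only [if_true, if_false, Bool.false_eq_true] <;> omega
        · subst q2
          apply h3 _ _ hd2
          · rw [Nat.even_iff]; omega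
          · simp only [if_true]; omega
        · subst q3
          apply h4 _ _ hd2
          · rw [Nat.even_iff]; omega
          · simp only [Bool.false_eq_true, if_false]; omega
    · rw [hB, Finset.mem_image] at hx
      obtain ⟨i, hi, rfl⟩ := hx
      rw [Finset.mem_range] at hi
      refine ⟨⟨?_, ?_⟩, ?_, h0 _ ?_⟩
      · simp only; omega
      · simp only; omega
      · simp only [abs_zero]; positivity
      · simp only; omega
  have hcard : (A ∪ B).card ≤ S.ncard := by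
    rw [← Set.ncard_coe_finset]
    exact Set.ncard_le_ncard hsub hfin
  rw [Finset.card_union_of_disjoint hdis, hcA, hcB] at hcard
  nlinarith [hcard]

end Pool.Agent.TFS5
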